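import Pool.Agent.Helper35.EAM.Spec

set_option autoImplicit false

set_option linter.unusedSectionVars false

namespace Pool.Agent.Helper97.EAM

open Finset Pool.H47EA Pool.Agent.Helper35.EAM

section
variable {V ι : Type} [Fintype V] [DecidableEq V] [Fintype ι] [DecidableEq ι]

lemma sg_beq (p q : Bool) : sg (p == q) = sg p * sg q := by
  cases p <;> cases q <;> norm_num [sg]

lemma sg_sq (p : Bool) : sg p * sg p = 1 := by cases p <;> norm_num [sg]

/-- positivity: all the spin moments are nonnegative -/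
def Pos (f : (V → Bool) → ℝ) : Prop :=
  ∀ U : V → ℕ, 0 ≤ ∑ σ : V → Bool, f σ * ∏ x, sg (σ x) ^ U x

lemma pos_one : Pos (fun _ : V → Bool => (1 : ℝ)) := by
  intro U
  have h : ∑ σ : V → Bool, (1 : ℝ) * ∏ x, sg (σ x) ^ U x = ∏ x, ∑ b : Bool, sg b ^ U x := by
    rw [Finset.prod_univ_sum, Fintype.piFinset_univ]
    simp
  rw [h]
  refine prod_nonneg fun x _ => ?_
  rw [Fintype.sum_bool]
  rcases Nat.even_or_odd (U x) with h | h <;> simp [sg, h.neg_one_pow]

lemma prod_single (σ : V → Bool) (u : V) : ∏ z, sg (σ z) ^ (Pi.single u 1 : V → ℕ) z = sg (σ u) := by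
  rw [prod_eq_single u]
  · simp
  · intro z _ hz; simp [Pi.single_eq_of_ne hz]
  · simp

lemma Pos.mul_edge {f : (V → Bool) → ℝ} (hf : Pos f) {x y : ℝ} (hx : 0 ≤ x) (hy : 0 ≤ y)
    (u v : V) : Pos (fun σ => f σ * (x + y * (sg (σ u) * sg (σ v)))) := by
  intro U
  have e : ∀ σ : V → Bool, f σ * (x + y * (sg (σ u) * sg (σ v))) * ∏ z, sg (σ z) ^ U z =
      x * (f σ * ∏ z, sg (σ z) ^ U z) +
        y * (f σ * ∏ z, sg (σ z) ^ (U + Pi.single u 1 + Pi.single v 1 : V → ℕ) z) := by
    intro σ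
    have : ∏ z, sg (σ z) ^ (U + Pi.single u 1 + Pi.single v 1 : V → ℕ) z =
        (∏ z, sg (σ z) ^ U z) * sg (σ u) * sg (σ v) := by
      simp only [Pi.add_apply, pow_add, prod_mul_distrib, prod_single]
    rw [this]; ring
  simp only [e, sum_add_distrib, ← mul_sum]
  exact add_nonneg (mul_nonneg hx (hf _)) (mul_nonneg hy (hf _))

lemma pos_prod (E : Finset ι) (x y : ι → ℝ) (hx : ∀ e, 0 ≤ x e) (hy : ∀ e, 0 ≤ y e) (a b : ι → V) :
    Pos (fun σ : V → Bool => ∏ e ∈ E, (x e + y e * (sg (σ (a e)) * sg (σ (b e))))) := by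
  induction E using Finset.induction_on with
  | empty => simpa using pos_one
  | insert e E he ih =>
    have := ih.mul_edge (hx e) (hy e) (a e) (b e)
    simp only [prod_insert he]
    intro U
    have h := this U
    refine h.trans (le_of_eq ?_)
    refine sum_congr rfl fun σ _ => ?_
    ring

lemma Pos.two {f : (V → Bool) → ℝ} (hf : Pos f) (u v : V) :
    0 ≤ ∑ σ : V → Bool, f σ * (sg (σ u) * sg (σ v)) := by
  have := hf (Pi.single u 1 + Pi.single v 1)
  simpa only [Pi.add_apply, pow_add, prod_mul_distrib, prod_single] using this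

lemma Pos.four {f : (V → Bool) → ℝ} (hf : Pos f) (u v w z : V) :
    0 ≤ ∑ σ : V → Bool, f σ * (sg (σ u) * sg (σ v) * (sg (σ w) * sg (σ z))) := by
  have := hf (Pi.single u 1 + Pi.single v 1 + (Pi.single w 1 + Pi.single z 1))
  simpa only [Pi.add_apply, pow_add, prod_mul_distrib, prod_single] using this

variable (a b : ι → V) (o g : V)

lemma pos_wt (t : ι → ℝ) (ht : ∀ e, 0 ≤ t e) : Pos (wt a b t) := by
  have := pos_prod univ (fun _ => (1 : ℝ)) t (fun _ => zero_le_one) ht a b
  exact this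

/-- GKS2 -/
lemma gks2 (t : ι → ℝ) (ht : ∀ e, 0 ≤ t e ∧ t e ≤ 1) (e0 : ι) :
    (∑ σ : V → Bool, wt a b t σ * (sg (σ o) * sg (σ g))) *
        (∑ σ : V → Bool, wt a b t σ * (sg (σ (a e0)) * sg (σ (b e0)))) ≤
      (∑ σ : V → Bool, wt a b t σ * (sg (σ (a e0)) * sg (σ (b e0)) * (sg (σ o) * sg (σ g)))) *
        ∑ σ : V → Bool, wt a b t σ := by
  rw [← sub_nonneg]
  -- the involution `τ ↦ σ τ`
  let E : (V → Bool) → (V → Bool) ≃ (V → Bool) := fun σ =>
    Function.Involutive.toPerm (fun τ x => (σ x == τ x)) (by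
      intro τ; funext x; cases h1 : σ x <;> cases h2 : τ x <;> simp [h1, h2])
  have hE : ∀ σ τ x, sg (E σ τ x) = sg (σ x) * sg (τ x) := fun σ τ x => sg_beq _ _
  have key : (∑ σ : V → Bool, wt a b t σ * (sg (σ (a e0)) * sg (σ (b e0)) * (sg (σ o) * sg (σ g)))) *
        (∑ σ : V → Bool, wt a b t σ) - (∑ σ : V → Bool, wt a b t σ * (sg (σ o) * sg (σ g))) *
        (∑ σ : V → Bool, wt a b t σ * (sg (σ (a e0)) * sg (σ (b e0)))) =
      ∑ τ : V → Bool, (1 - sg (τ (a e0)) * sg (τ (b e0))) *
        ∑ σ : V → Bool, (∏ e, ((1 + t e ^ 2 * (sg (τ (a e)) * sg (τ (b e)))) +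
          (t e * (1 + sg (τ (a e)) * sg (τ (b e)))) * (sg (σ (a e)) * sg (σ (b e))))) *
          (sg (σ (a e0)) * sg (σ (b e0)) * (sg (σ o) * sg (σ g))) := by
    rw [sum_mul_sum, sum_mul_sum, ← sum_sub_distrib]
    have : ∀ σ : V → Bool, (∑ σ' : V → Bool, wt a b t σ *
          (sg (σ (a e0)) * sg (σ (b e0)) * (sg (σ o) * sg (σ g))) * wt a b t σ') -
        (∑ σ' : V → Bool, wt a b t σ * (sg (σ o) * sg (σ g)) *
          (wt a b t σ' * (sg (σ' (a e0)) * sg (σ' (b e0))))) =
        ∑ τ : V → Bool, (1 - sg (τ (a e0)) * sg (τ (b e0))) *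
          ((∏ e, ((1 + t e ^ 2 * (sg (τ (a e)) * sg (τ (b e)))) +
          (t e * (1 + sg (τ (a e)) * sg (τ (b e)))) * (sg (σ (a e)) * sg (σ (b e))))) *
          (sg (σ (a e0)) * sg (σ (b e0)) * (sg (σ o) * sg (σ g)))) := by
      intro σ
      rw [← sum_sub_distrib]
      refine (Fintype.sum_equiv (E σ) _ _ fun τ => ?_).symm
      have hw : wt a b t σ * wt a b t (E σ τ) = ∏ e, ((1 + t e ^ 2 * (sg (τ (a e)) * sg (τ (b e)))) +
          (t e * (1 + sg (τ (a e)) * sg (τ (b e)))) * (sg (σ (a e)) * sg (σ (b e)))) := by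
        unfold wt
        rw [← prod_mul_distrib]
        refine prod_congr rfl fun e _ => ?_
        rw [hE, hE]
        have h1 := sg_sq (σ (a e))
        have h2 := sg_sq (σ (b e))
        linear_combination (t e ^ 2 * (sg (τ (a e)) * sg (τ (b e))) * (sg (σ (b e)) * sg (σ (b e)))) * h1 +
          (t e ^ 2 * (sg (τ (a e)) * sg (τ (b e)))) * h2
      rw [← hw, hE, hE]
      have h1 := sg_sq (σ (a e0))
      have h2 := sg_sq (σ (b e0))
      ring
    simp only [this]
    rw [sum_comm]
    simp only [mul_sum]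
  rw [key]
  refine sum_nonneg fun τ _ => mul_nonneg ?_ ?_
  · cases h1 : τ (a e0) <;> cases h2 : τ (b e0) <;> norm_num [sg]
  · refine Pos.four (pos_prod univ _ _ ?_ ?_ a b) _ _ _ _
    · intro e
      have := ht e
      have h3 : t e ^ 2 ≤ 1 := by nlinarith
      have h4 : 0 ≤ t e ^ 2 := sq_nonneg _
      have h5 : sg (τ (a e)) * sg (τ (b e)) = 1 ∨ sg (τ (a e)) * sg (τ (b e)) = -1 := by
        cases h1 : τ (a e) <;> cases h2 : τ (b e) <;> norm_num [sg]
      rcases h5 with h5 | h5 <;> rw [h5] <;> linarith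
    · intro e
      have := ht e
      refine mul_nonneg this.1 ?_
      cases h1 : τ (a e) <;> cases h2 : τ (b e) <;> norm_num [sg]

/-- partition function -/
noncomputable def DD (t : ι → ℝ) : ℝ := ∑ σ : V → Bool, wt a b t σ
noncomputable def NN (t : ι → ℝ) : ℝ := ∑ σ : V → Bool, wt a b t σ * (sg (σ o) * sg (σ g))

lemma wt_update (t : ι → ℝ) (e : ι) (x : ℝ) (σ : V → Bool) :
    wt a b (Function.update t e x) σ =
      wt a b (Function.update t e 0) σ * (1 + x * (sg (σ (a e)) * sg (σ (b e)))) := by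
  unfold wt
  rw [← mul_prod_erase univ _ (mem_univ e), ← mul_prod_erase univ _ (mem_univ e)]
  simp only [Function.update_self, zero_mul, add_zero, one_mul]
  rw [mul_comm]
  congr 1
  refine prod_congr rfl fun e' he' => ?_
  rw [Function.update_of_ne (ne_of_mem_erase he'), Function.update_of_ne (ne_of_mem_erase he')]

lemma wt_nonneg (t : ι → ℝ) (ht : ∀ e, 0 ≤ t e ∧ t e ≤ 1) (σ : V → Bool) : 0 ≤ wt a b t σ := by
  refine prod_nonneg fun e _ => ?_
  have := ht e
  cases h1 : σ (a e) <;> cases h2 : σ (b e) <;> simp only [sg] <;> norm_num <;> linarith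

lemma DD_pos (t : ι → ℝ) (ht : ∀ e, 0 ≤ t e ∧ t e ≤ 1) : 0 < DD a b t := by
  refine sum_pos' (fun σ _ => wt_nonneg a b t ht σ) ⟨fun _ => true, mem_univ _, ?_⟩
  refine prod_pos fun e _ => ?_
  have := (ht e).1
  simp only [sg]; norm_num; linarith

lemma affine_step (t : ι → ℝ) (ht : ∀ e, 0 ≤ t e ∧ t e ≤ 1) (e : ι) (G0 G1 : ℝ)
    (h0 : G0 * DD a b (Function.update t e 0) ≤ NN a b o g (Function.update t e 0))
    (h1 : G1 * DD a b (Function.update t e 1) ≤ NN a b o g (Function.update t e 1)) :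
    ((1 - t e) * G0 + t e * G1) * DD a b t ≤ NN a b o g t := by
  set t0 := Function.update t e 0 with ht0
  have ht0' : ∀ e', 0 ≤ t0 e' ∧ t0 e' ≤ 1 := by
    intro e'
    by_cases h : e' = e
    · subst h; simp [ht0]
    · rw [ht0, Function.update_of_ne h]; exact ht e'
  have ht1' : ∀ e', 0 ≤ Function.update t e 1 e' ∧ Function.update t e 1 e' ≤ 1 := by
    intro e'
    by_cases h : e' = e
    · subst h; simp
    · rw [Function.update_of_ne h]; exact ht e'
  set D' : ℝ := ∑ σ : V → Bool, wt a b t0 σ * (sg (σ (a e)) * sg (σ (b e))) with hD'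
  set N' : ℝ := ∑ σ : V → Bool, wt a b t0 σ * (sg (σ (a e)) * sg (σ (b e)) * (sg (σ o) * sg (σ g)))
    with hN'
  have eD : ∀ x, DD a b (Function.update t e x) = DD a b t0 + x * D' := by
    intro x
    rw [DD, DD, hD', mul_sum, ← sum_add_distrib]
    refine sum_congr rfl fun σ _ => ?_
    rw [wt_update]; ring
  have eN : ∀ x, NN a b o g (Function.update t e x) = NN a b o g t0 + x * N' := by
    intro x
    rw [NN, NN, hN', mul_sum, ← sum_add_distrib]
    refine sum_congr rfl fun σ _ => ?_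
    rw [wt_update]; ring
  have hD0 : 0 < DD a b t0 := DD_pos a b t0 ht0'
  have hD1 : 0 < DD a b t0 + 1 * D' := by rw [← eD]; exact DD_pos a b _ ht1'
  have hDp : 0 ≤ D' := (pos_wt a b t0 fun e => (ht0' e).1).two _ _
  have hg : NN a b o g t0 * D' ≤ N' * DD a b t0 := gks2 a b o g t0 ht0' e
  have hte := ht e
  have e1 : DD a b t = DD a b t0 + t e * D' := by rw [← eD, Function.update_eq_self]
  have e2 : NN a b o g t = NN a b o g t0 + t e * N' := by rw [← eN, Function.update_eq_self]
  rw [e1, e2]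
  rw [eD, eN] at h1
  generalize DD a b t0 = D0 at *
  generalize NN a b o g t0 = N0 at *
  generalize t e = τ at *
  clear_value D' N'
  have g0 : G0 ≤ N0 / D0 := by rwa [le_div_iff₀ hD0]
  have g1 : G1 ≤ (N0 + 1 * N') / (D0 + 1 * D') := by rwa [le_div_iff₀ hD1]
  have hpos : 0 ≤ D0 + τ * D' := by nlinarith
  calc ((1 - τ) * G0 + τ * G1) * (D0 + τ * D')
      ≤ ((1 - τ) * (N0 / D0) + τ * ((N0 + 1 * N') / (D0 + 1 * D'))) * (D0 + τ * D') := by
        apply mul_le_mul_of_nonneg_right _ hpos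
        have := mul_le_mul_of_nonneg_left g0 (show 0 ≤ 1 - τ by linarith)
        have := mul_le_mul_of_nonneg_left g1 hte.1
        linarith
    _ = N0 + τ * N' - τ * (1 - τ) * D' * (N' * D0 - N0 * D') / (D0 * (D0 + 1 * D')) := by
        field_simp
        ring
    _ ≤ N0 + τ * N' := by
        have : 0 ≤ τ * (1 - τ) * D' * (N' * D0 - N0 * D') / (D0 * (D0 + 1 * D')) := by
          apply div_nonneg
          · apply mul_nonneg
            · apply mul_nonneg
              · exact mul_nonneg hte.1 (by linarith)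
              · exact hDp
            · linarith
          · positivity
        linarith

end

section
variable {V ι P : Type} [Fintype V] [DecidableEq V] [Fintype ι] [DecidableEq ι] [Fintype P]

lemma prod_affine (A : Finset ι) (t : ι → ℝ) (e : ι) :
    ∏ x ∈ A, t x = (1 - t e) * ∏ x ∈ A, Function.update t e 0 x +
      t e * ∏ x ∈ A, Function.update t e 1 x := by
  by_cases he : e ∈ A
  · rw [← mul_prod_erase A _ he, ← mul_prod_erase A _ he, ← mul_prod_erase A _ he]
    have : ∀ x : ℝ, ∏ y ∈ A.erase e, Function.update t e x y = ∏ y ∈ A.erase e, t y := fun x =>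
      prod_congr rfl fun y hy => Function.update_of_ne (ne_of_mem_erase hy) _ _
    rw [this, this]
    simp
  · have : ∀ x : ℝ, ∏ y ∈ A, Function.update t e x y = ∏ y ∈ A, t y := fun x =>
      prod_congr rfl fun y hy => Function.update_of_ne (ne_of_mem_of_not_mem hy he) _ _
    rw [this, this]
    ring

noncomputable def GG (γ : P → Finset ι) (lam : ℝ) (t : ι → ℝ) : ℝ :=
  2 * lam * ∑ s, ∏ e ∈ γ s, t e - lam ^ 2 * ∑ s, ∑ s', ∏ e ∈ γ s ∪ γ s', t e

lemma GG_affine (γ : P → Finset ι) (lam : ℝ) (t : ι → ℝ) (e : ι) :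
    GG γ lam t = (1 - t e) * GG γ lam (Function.update t e 0) +
      t e * GG γ lam (Function.update t e 1) := by
  unfold GG
  rw [sum_congr rfl fun s _ => prod_affine (γ s) t e,
    sum_congr rfl fun s _ => sum_congr rfl fun s' _ => prod_affine (γ s ∪ γ s') t e]
  simp only [sum_add_distrib, ← mul_sum]
  ring

lemma base (a b : ι → V) (o g : V) (γ : P → Finset ι)
    (hγ : ∀ s, ∀ σ : V → Bool, (∀ e ∈ γ s, σ (a e) = σ (b e)) → σ o = σ g)
    (t : ι → ℝ) (ht : ∀ e, t e = 0 ∨ t e = 1) (lam : ℝ) :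
    GG γ lam t * DD a b t ≤ NN a b o g t := by
  classical
  have ht' : ∀ e, 0 ≤ t e ∧ t e ≤ 1 := fun e => by rcases ht e with h | h <;> rw [h] <;> norm_num
  have hp : ∀ A : Finset ι, ∏ e ∈ A, t e = if ∀ e ∈ A, t e = 1 then 1 else 0 := by
    intro A
    split_ifs with h
    · exact prod_eq_one h
    · push Not at h
      obtain ⟨e, he, h⟩ := h
      exact prod_eq_zero he ((ht e).resolve_right h)
  set Z : ℝ := ∑ s, ∏ e ∈ γ s, t e with hZ
  have hG : GG γ lam t = 2 * lam * Z - lam ^ 2 * (Z * Z) := by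
    rw [GG, hZ, sum_mul_sum]
    congr 2
    refine sum_congr rfl fun s _ => sum_congr rfl fun s' _ => ?_
    rw [hp, hp, hp]
    by_cases h1 : ∀ e ∈ γ s, t e = 1
    · by_cases h2 : ∀ e ∈ γ s', t e = 1
      · rw [if_pos h1, if_pos h2, if_pos, mul_one]
        intro e he
        rcases mem_union.1 he with h | h
        · exact h1 e h
        · exact h2 e h
      · rw [if_pos h1, if_neg h2, if_neg, mul_zero]
        intro h
        exact h2 fun e he => h e (mem_union_right _ he)
    · rw [if_neg h1, if_neg, zero_mul]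
      intro h
      exact h1 fun e he => h e (mem_union_left _ he)
  by_cases hz : ∃ s, ∀ e ∈ γ s, t e = 1
  · obtain ⟨s, hs⟩ := hz
    have hND : NN a b o g t = DD a b t := by
      refine sum_congr rfl fun σ _ => ?_
      by_cases hw : wt a b t σ = 0
      · rw [hw, zero_mul]
      · have : σ o = σ g := by
          refine hγ s σ fun e he => ?_
          by_contra hne
          apply hw
          refine prod_eq_zero (mem_univ e) ?_
          rw [hs e he]
          cases h1 : σ (a e) <;> cases h2 : σ (b e) <;> simp_all [sg]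
        rw [this, sg_sq, mul_one]
    rw [hND, hG]
    have h1 : 2 * lam * Z - lam ^ 2 * (Z * Z) ≤ 1 := by nlinarith [sq_nonneg (1 - lam * Z)]
    have h2 := DD_pos a b t ht'
    nlinarith
  · push Not at hz
    have hZ0 : Z = 0 := by
      refine sum_eq_zero fun s _ => ?_
      rw [hp, if_neg]
      intro h
      obtain ⟨e, he, h'⟩ := hz s
      exact h' (h e he)
    rw [hG, hZ0]
    have := (pos_wt a b t fun e => (ht' e).1).two o g
    rw [NN]
    linarith

lemma main (a b : ι → V) (o g : V) (γ : P → Finset ι)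
    (hγ : ∀ s, ∀ σ : V → Bool, (∀ e ∈ γ s, σ (a e) = σ (b e)) → σ o = σ g) (lam : ℝ)
    (T : Finset ι) : ∀ t : ι → ℝ, (∀ e, 0 ≤ t e ∧ t e ≤ 1) → (∀ e, e ∉ T → t e = 0 ∨ t e = 1) →
    GG γ lam t * DD a b t ≤ NN a b o g t := by
  induction T using Finset.induction_on with
  | empty =>
    intro t _ h
    exact base a b o g γ hγ t (fun e => h e (notMem_empty e)) lam
  | insert e T he ih =>
    intro t ht h
    rw [GG_affine γ lam t e]
    have hb : ∀ x : ℝ, (x = 0 ∨ x = 1) → GG γ lam (Function.update t e x) *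
        DD a b (Function.update t e x) ≤ NN a b o g (Function.update t e x) := by
      intro x hx
      refine ih _ ?_ ?_
      · intro e'
        by_cases h' : e' = e
        · subst h'
          rw [Function.update_self]
          rcases hx with rfl | rfl <;> norm_num
        · rw [Function.update_of_ne h']; exact ht e'
      · intro e' he'
        by_cases h' : e' = e
        · subst h'
          rw [Function.update_self]
          exact hx
        · rw [Function.update_of_ne h']
          exact h e' (by simp [h', he'])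
    exact affine_step a b o g t ht e _ _ (hb 0 (Or.inl rfl)) (hb 1 (Or.inr rfl))

end

theorem t_GKS : S_GKS := by
  intro V ι P _ _ _ _ _ a b o g γ hγ t ht lam
  exact main a b o g γ hγ lam univ t ht (fun e he => absurd (mem_univ e) he)

end Pool.Agent.Helper97.EAM
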