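import Pool.Agent.Helper35.EAM.Spec

set_option autoImplicit false

namespace Pool.Agent.Helper97.EAM

open Finset Pool.H47EA Pool.Agent.Helper35.EAM

/-- transition probabilities of the lazy walk on `ℤ` -/
noncomputable def vv (t : ℕ) (j : ℤ) : ℝ := ((2 * t).choose (t + j.natAbs) : ℝ) / 4 ^ t

lemma vv_nonneg (t : ℕ) (j : ℤ) : 0 ≤ vv t j := by unfold vv; positivity

lemma vv_neg (t : ℕ) (j : ℤ) : vv t (-j) = vv t j := by unfold vv; rw [Int.natAbs_neg]

lemma vv_zero_zero : vv 0 0 = 1 := by simp [vv]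

lemma vv_succ_nat (t j : ℕ) :
    vv (t + 1) (j : ℤ) = (2 * vv t j + vv t (j + 1) + vv t (j - 1)) / 4 := by
  unfold vv
  rcases j with _ | j
  · have h1 : (2 * (t + 1)).choose (t + 1) =
        (2 * t).choose (t + 1) + 2 * (2 * t).choose t + (2 * t).choose (t + 1) := by
      rcases t with _ | t
      · simp
      · rw [show 2 * (t + 1 + 1) = (2 * (t + 1) + 1) + 1 by ring, Nat.choose_succ_succ,
          Nat.choose_succ_succ, Nat.choose_succ_succ (2 * (t + 1)) (t + 1)]
        have : (2 * (t + 1)).choose t = (2 * (t + 1)).choose (t + 1 + 1) := by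
          rw [← Nat.choose_symm_of_eq_add (by omega : 2 * (t + 1) = t + (t + 1 + 1))]
        rw [this]
        ring
    simp only [Nat.cast_zero, Int.natAbs_zero, add_zero, zero_add, zero_sub, Int.natAbs_neg,
      Int.natAbs_one]
    rw [h1]
    push_cast
    field_simp
    ring
  · have e1 : ((j + 1 : ℕ) : ℤ).natAbs = j + 1 := by omega
    have e2 : (((j + 1 : ℕ) : ℤ) + 1).natAbs = j + 2 := by omega
    have e3 : (((j + 1 : ℕ) : ℤ) - 1).natAbs = j := by omega
    rw [e1, e2, e3]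
    have h1 : (2 * (t + 1)).choose (t + 1 + (j + 1)) =
        (2 * t).choose (t + (j + 2)) + 2 * (2 * t).choose (t + (j + 1)) + (2 * t).choose (t + j) := by
      rw [show 2 * (t + 1) = (2 * t + 1) + 1 by ring, show t + 1 + (j + 1) = (t + j + 1) + 1 by ring,
        Nat.choose_succ_succ, Nat.choose_succ_succ, Nat.choose_succ_succ (2 * t) (t + j + 1),
        show t + (j + 2) = t + j + 1 + 1 by ring, show t + (j + 1) = t + j + 1 by ring]
      ring
    rw [h1]
    push_cast
    field_simp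
    ring

lemma vv_succ (t : ℕ) (j : ℤ) :
    vv (t + 1) j = (2 * vv t j + vv t (j + 1) + vv t (j - 1)) / 4 := by
  rcases Int.natAbs_eq j with h | h
  · rw [h]; exact vv_succ_nat t _
  · rw [h, vv_neg, vv_succ_nat, vv_neg]
    have e1 : vv t (-(j.natAbs : ℤ) + 1) = vv t ((j.natAbs : ℤ) - 1) := by
      rw [← vv_neg]; congr 1; ring
    have e2 : vv t (-(j.natAbs : ℤ) - 1) = vv t ((j.natAbs : ℤ) + 1) := by
      rw [← vv_neg]; congr 1; ring
    rw [e1, e2]; ring

/-- the four coordinates -/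
def chi {r : ℕ} (i : Fin 4) (a : Dir r) : ℤ := if a.1 i then 1 else 0

def LL {r : ℕ} (i : Fin 4) (δ : Dir r → ℤ) : ℤ := ∑ a, chi i a * δ a

lemma LL_step {r : ℕ} (i : Fin 4) (δ : Dir r → ℤ) (a b : Dir r) :
    LL i (δ + Pi.single a 1 - Pi.single b 1) = LL i δ + chi i a - chi i b := by
  unfold LL
  simp only [Pi.add_apply, Pi.sub_apply, mul_add, mul_sub, sum_add_distrib, sum_sub_distrib]
  congr 1
  · congr 1
    rw [sum_eq_single a]
    · simp
    · intro c _ hc; simp [Pi.single_eq_of_ne hc]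
    · simp
  · rw [sum_eq_single b]
    · simp
    · intro c _ hc; simp [Pi.single_eq_of_ne hc]
    · simp

lemma sum_dir {r : ℕ} (F : Fin 4 → Bool → Bool → ℝ) :
    ∑ a : Dir r, ∑ b : Dir r, ∏ i, F i (a.1 i) (b.1 i) =
      (r : ℝ) ^ 2 * ∏ i, ∑ p : Bool, ∑ q : Bool, F i p q := by
  have h1 : ∀ x : Fin 4 → Bool, ∑ y : Fin 4 → Bool, ∏ i, F i (x i) (y i) =
      ∏ i, ∑ q : Bool, F i (x i) q := by
    intro x
    rw [Finset.prod_univ_sum, Fintype.piFinset_univ]
  have h2 : ∏ i, ∑ p : Bool, ∑ q : Bool, F i p q =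
      ∑ x : Fin 4 → Bool, ∏ i, ∑ q : Bool, F i (x i) q := by
    rw [Finset.prod_univ_sum, Fintype.piFinset_univ]
  rw [h2]
  simp only [Fintype.sum_prod_type, sum_const, card_univ, Fintype.card_fin, nsmul_eq_mul, ← mul_sum]
  simp only [h1]
  ring

lemma card_dir (r : ℕ) : (Fintype.card (Dir r) : ℝ) = 16 * r := by
  simp [Fintype.card_prod]

lemma gR_le (r : ℕ) (hr : 1 ≤ r) (t : ℕ) : ∀ δ : Dir r → ℤ,
    gR (Dir r) t δ ≤ ∏ i, vv t (LL i δ) := by
  induction t with
  | zero =>
    intro δ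
    rw [gR]
    split_ifs with h
    · subst h
      simp [LL, vv_zero_zero]
    · exact prod_nonneg fun i _ => vv_nonneg _ _
  | succ t ih =>
    intro δ
    rw [gR, card_dir]
    have hr' : (0 : ℝ) < r := by exact_mod_cast hr
    rw [div_le_iff₀ (by positivity)]
    calc ∑ a : Dir r, ∑ b : Dir r, gR (Dir r) t (δ + Pi.single a 1 - Pi.single b 1)
        ≤ ∑ a : Dir r, ∑ b : Dir r, ∏ i, vv t (LL i δ + (if a.1 i then 1 else 0) -
            (if b.1 i then 1 else 0)) := by
          refine sum_le_sum fun a _ => sum_le_sum fun b _ => ?_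
          refine (ih _).trans (le_of_eq ?_)
          refine prod_congr rfl fun i _ => ?_
          rw [LL_step]; rfl
      _ = (r : ℝ) ^ 2 * ∏ i, ∑ p : Bool, ∑ q : Bool, vv t (LL i δ + (if p then 1 else 0) -
            (if q then 1 else 0)) :=
          sum_dir (fun i p q => vv t (LL i δ + (if p then 1 else 0) - (if q then 1 else 0)))
      _ = (r : ℝ) ^ 2 * ∏ i : Fin 4, (4 * vv (t + 1) (LL i δ)) := by
          congr 1
          refine prod_congr rfl fun i _ => ?_
          rw [vv_succ]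
          simp only [Fintype.sum_bool, if_true, Bool.false_eq_true, if_false, add_zero, sub_zero,
            add_sub_cancel_right]
          ring
      _ = (∏ i, vv (t + 1) (LL i δ)) * (16 * (r : ℝ)) ^ 2 := by
          rw [prod_mul_distrib]
          simp only [prod_const, card_univ, Fintype.card_fin]
          ring

lemma uu_sq (t : ℕ) : vv t 0 ^ 2 ≤ 1 / (2 * t + 1) := by
  induction t with
  | zero => simp [vv]
  | succ t ih =>
    have h : vv (t + 1) 0 * (2 * (t + 1)) = vv t 0 * (2 * t + 1) := by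
      have h0 := Nat.succ_mul_centralBinom_succ t
      have h1 : ((t : ℝ) + 1) * ((2 * (t + 1)).choose (t + 1) : ℝ) =
          2 * (2 * t + 1) * ((2 * t).choose t : ℝ) := by
        rw [Nat.centralBinom, Nat.centralBinom] at h0
        exact_mod_cast h0
      unfold vv
      simp only [Int.natAbs_zero, add_zero]
      rw [pow_succ]
      field_simp
      linarith
    have h2 : vv (t + 1) 0 = vv t 0 * (2 * t + 1) / (2 * (t + 1)) := by
      field_simp
      linarith
    rw [h2, div_pow, mul_pow]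
    calc vv t 0 ^ 2 * (2 * (t : ℝ) + 1) ^ 2 / (2 * (t + 1)) ^ 2
        ≤ 1 / (2 * t + 1) * (2 * (t : ℝ) + 1) ^ 2 / (2 * (t + 1)) ^ 2 := by gcongr
      _ = (2 * (t : ℝ) + 1) / (2 * (t + 1)) ^ 2 := by field_simp
      _ ≤ 1 / (2 * ((t + 1 : ℕ) : ℝ) + 1) := by
          push_cast
          rw [div_le_div_iff₀ (by positivity) (by positivity)]
          nlinarith

lemma sum_sq (n : ℕ) : ∑ t ∈ range (n + 1), (1 / (2 * (t : ℝ) + 1)) ^ 2 ≤
    (5 : ℝ) / 4 - 1 / (4 * ((n : ℝ) + 1)) := by
  induction n with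
  | zero => norm_num
  | succ n ih =>
    rw [sum_range_succ]
    have h : (1 / (2 * ((n + 1 : ℕ) : ℝ) + 1)) ^ 2 ≤ 1 / (4 * (n + 1)) - 1 / (4 * (n + 2)) := by
      push_cast
      rw [div_sub_div _ _ (by positivity) (by positivity), div_pow, one_pow,
        div_le_div_iff₀ (by positivity) (by positivity)]
      nlinarith [mul_nonneg (Nat.cast_nonneg (α := ℝ) n) (Nat.cast_nonneg (α := ℝ) n)]
    have e : (5 : ℝ) / 4 - 1 / (4 * (((n + 1 : ℕ) : ℝ) + 1)) = 5 / 4 - 1 / (4 * (n + 2)) := by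
      push_cast; ring
    rw [e]
    linarith

theorem t_WALK : S_WALK := by
  intro r n hr
  have h1 : ∀ t, gR (Dir r) t 0 ≤ (1 / (2 * (t : ℝ) + 1)) ^ 2 := by
    intro t
    refine (gR_le r hr t 0).trans ?_
    have e : ∏ i : Fin 4, vv t (LL i (0 : Dir r → ℤ)) = (vv t 0 ^ 2) ^ 2 := by
      simp only [LL, Pi.zero_apply, mul_zero, sum_const_zero, prod_const, card_univ,
        Fintype.card_fin]
      ring
    rw [e]
    exact pow_le_pow_left₀ (sq_nonneg _) (uu_sq t) 2
  refine (sum_le_sum fun t _ => h1 t).trans ?_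
  rcases n with _ | n
  · norm_num
  · refine (sum_sq n).trans ?_
    have : 0 ≤ 1 / (4 * ((n : ℝ) + 1)) := by positivity
    linarith

end Pool.Agent.Helper97.EAM
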